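import Pool.Agent.Y924.UF.Stm3

/-! # The translation of formulas is primitive recursive on codes -/

set_option autoImplicit false

namespace Pool.Agent.Y931.UF

open Function
open Pool.Agent.Y924.EL Pool.Agent.Y924.UF

theorem t_TCMP : Pool.Agent.Y924.UF.S_CMPA → Pool.Agent.Y924.UF.S_CMPB →
    Pool.Agent.Y924.UF.S_REC → Pool.Agent.Y924.UF.S_TCMP := by
  intro hA hB hR p V φ
  obtain ⟨hB1, -, hB3⟩ := hB
  have P1 : Primrec fun m : ℕ => m.unpair.1 := Primrec.fst.comp Primrec.unpair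
  have P2 : Primrec fun m : ℕ => m.unpair.2 := Primrec.snd.comp Primrec.unpair
  have hpair : ∀ f g : ℕ → ℕ, Primrec f → Primrec g → Primrec fun m => Nat.pair (f m) (g m) :=
    fun f g hf hg => Primrec₂.natPair.comp hf hg
  -- basic formulas with components
  have hbas : ∀ (τ : Tp) (f g h : ℕ → ℕ), Primrec f → Primrec g → Primrec h →
      Primrec fun m => (bas τ V φ (f m) (g m) (h m)).code := by
    intro τ f g h hf hg hh
    have h1 := (hA τ V φ).comp (hpair f _ hf (hpair g h hg hh))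
    refine h1.of_eq (fun m => ?_)
    simp only [Nat.unpair_pair]
  have hg0 : Primrec fun m : ℕ => (bas (TEq p) V φ m.unpair.1 m.unpair.2 m.unpair.1).code :=
    hbas _ _ _ _ P1 P2 P1
  have hg1 : Primrec fun m : ℕ => (bas TOne V φ m m m).code :=
    hbas _ _ _ _ Primrec.id Primrec.id Primrec.id
  have hg2 : Primrec fun m : ℕ => (bas (TAdd p) V φ m.unpair.1 m.unpair.2.unpair.1
      m.unpair.2.unpair.2).code := hA _ _ _
  have hg3 : Primrec fun m : ℕ => (bas (TMul p) V φ m.unpair.1 m.unpair.2.unpair.1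
      m.unpair.2.unpair.2).code := hA _ _ _
  have hg4 : Primrec fun _ : ℕ => (Fm.ex 0 (.neg (.eq 0 0))).code := Primrec.const _
  have hg7 : Primrec fun m : ℕ => exRc (100 + V * m.unpair.1) V (Nat.pair 6 (Nat.pair
      (bas (TFin p) V φ m.unpair.1 m.unpair.1 m.unpair.1).code m.unpair.2)) := by
    have h1 : Primrec fun m : ℕ => Nat.pair 6 (Nat.pair
        (bas (TFin p) V φ m.unpair.1 m.unpair.1 m.unpair.1).code m.unpair.2) :=
      hpair _ _ (Primrec.const 6) (hpair _ _ (hbas _ _ _ _ P1 P1 P1) P2)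
    have h2 := (hB3 V).comp (hpair _ _ P1 h1)
    refine h2.of_eq (fun m => ?_)
    simp only [Nat.unpair_pair]
  obtain ⟨F, hF, h0, h1, h2, h3, h4, h5, h6, h7⟩ := hR _ _ _ _ _ _ hg0 hg1 hg2 hg3 hg4 hg7
  refine ⟨F, hF, fun ψ => ?_⟩
  induction ψ with
  | eq i j =>
    change F (Nat.pair 0 (Nat.pair i j)) = _
    rw [h0]
    simp only [Nat.unpair_pair]
    rfl
  | one i =>
    change F (Nat.pair 1 i) = _
    rw [h1]
    rfl
  | add i j k =>
    change F (Nat.pair 2 (Nat.pair i (Nat.pair j k))) = _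
    rw [h2]
    simp only [Nat.unpair_pair]
    rfl
  | mul i j k =>
    change F (Nat.pair 3 (Nat.pair i (Nat.pair j k))) = _
    rw [h3]
    simp only [Nat.unpair_pair]
    rfl
  | val i =>
    change F (Nat.pair 4 i) = _
    rw [h4]
    rfl
  | neg ψ ih =>
    change F (Nat.pair 5 ψ.code) = Nat.pair 5 (trF p V φ ψ).code
    rw [h5, ih]
  | and ψ χ ih1 ih2 =>
    change F (Nat.pair 6 (Nat.pair ψ.code χ.code)) =
      Nat.pair 6 (Nat.pair (trF p V φ ψ).code (trF p V φ χ).code)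
    rw [h6, ih1, ih2]
  | ex i ψ ih =>
    change F (Nat.pair 7 (Nat.pair i ψ.code)) =
      (exR (100 + V * i) V (.and (bas (TFin p) V φ i i i) (trF p V φ ψ))).code
    rw [h7, ih, hB1]
    simp only [Nat.unpair_pair]
    rfl

end Pool.Agent.Y931.UF
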